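import Mathlib
import Pool.Agent.Helper26.OB.Defs

/-!
# OB, block R1: the orbit length
-/

set_option autoImplicit false

namespace Pool.Agent.Helper38.OB

open Pool.Agent.Helper26.OB

theorem iter_coe (σ : ℂ ≃+* ℂ) (n : ℕ) (z : ℂ) : (⇑(σ : ℂ →+* ℂ))^[n] z = (⇑σ)^[n] z := rfl

theorem iter_map {F : Type*} (f : F → F) (n : ℕ) (z : F) : (Option.map f)^[n] (some z) = some (f^[n] z) := by
  induction n generalizing z with
  | zero => rfl
  | succ n ih => rw [Function.iterate_succ_apply, Function.iterate_succ_apply, Option.map_some, ih]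

theorem iter_none {F : Type*} (f : F → F) (n : ℕ) : (Option.map f)^[n] none = none := by
  induction n with
  | zero => rfl
  | succ n ih => rw [Function.iterate_succ_apply, Option.map_none, ih]

theorem iter_div (σ : ℂ ≃+* ℂ) (n : ℕ) (z w : ℂ) : σ^[n] (z / w) = σ^[n] z / σ^[n] w := by
  induction n with
  | zero => rfl
  | succ n ih => rw [Function.iterate_succ_apply', Function.iterate_succ_apply', Function.iterate_succ_apply', ih, map_div₀]

theorem per_iff (σ : ℂ ≃+* ℂ) (x : Fin 2 → ℂ) (n : ℕ) :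
    Function.IsPeriodicPt (Option.map (σ : ℂ →+* ℂ)) n (pr x) ↔ σ^[n] (x 0) * x 1 = x 0 * σ^[n] (x 1) := by
  unfold Function.IsPeriodicPt Function.IsFixedPt pr
  by_cases h : x 1 = 0
  · rw [if_pos h, iter_none, h, iterate_map_zero]
    simp
  · rw [if_neg h, iter_map, Option.some_inj, iter_coe]
    have h1 : σ^[n] (x 0 / x 1) = σ^[n] (x 0) / σ^[n] (x 1) := iter_div σ n (x 0) (x 1)
    have h2 : σ^[n] (x 1) ≠ 0 := by
      intro h3
      have h4 : σ^[n] (x 1) = σ^[n] 0 := by rw [h3, iterate_map_zero]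
      exact h (σ.injective.iterate n h4)
    rw [h1, div_eq_div_iff h2 h]

/-- the orbit length of the result file -/
theorem ol_eq' (σ : ℂ ≃+* ℂ) (x : Fin 2 → ℂ) :
    ol (σ : ℂ →+* ℂ) x = sInf {n | 1 ≤ n ∧ σ^[n] (x 0) * x 1 = x 0 * σ^[n] (x 1)} := by
  unfold ol
  rw [Function.minimalPeriod_eq_sInf_n_pos_IsPeriodicPt]
  congr 1
  ext n
  exact and_congr Iff.rfl (per_iff σ x n)

/-- **R1**: the orbit length of the result file -/
theorem ol_eq (σ : ℂ ≃+* ℂ) (x : Fin 2 → ℂ) (_ : x ≠ 0) :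
    ol (σ : ℂ →+* ℂ) x = sInf {n | 1 ≤ n ∧ σ^[n] (x 0) * x 1 = x 0 * σ^[n] (x 1)} := ol_eq' σ x

end Pool.Agent.Helper38.OB
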