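import Mathlib
import Pool.Agent.Helper95.OB.Teq

/-!
# OB, block T1': the equations over an algebraically closed subfield
-/

set_option autoImplicit false

namespace Pool.Agent.Helper38.OB

open Polynomial Pool.Agent.Helper95.OB

/-- **T1'** -/
theorem teq' (A : Subfield ℂ) (hA : ∀ z : ℂ, IsAlgebraic A z → z ∈ A) (Y : Finset ℂ) (hY : ∀ y ∈ Y, y ∉ A) :
    ∃ (r : ℕ) (t : Fin r → ℂ), AlgebraicIndependent A t ∧
      ∀ y ∈ Y, ∃ (S : Finset (Fin r →₀ ℕ)) (h u : (Fin r →₀ ℕ) → Polynomial ℂ),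
        (∀ μ i, (h μ).coeff i ∈ A) ∧ (∀ μ i, (u μ).coeff i ∈ A) ∧
        ∑ μ ∈ S, u μ * h μ = 1 ∧ ∑ μ ∈ S, (h μ).eval y * ∏ j, t j ^ μ j = 0 := by
  obtain ⟨r, t, ht, hal⟩ := basis (K := A) Y
  refine ⟨r, t, ht, fun y hy => ?_⟩
  obtain ⟨S, h, hne, hrel⟩ := rel t ht y (hal y hy)
  obtain ⟨g, h', u, hg, hfac, hb⟩ := bez S h hne
  set φ := algebraMap A ℂ with hφ
  refine ⟨S, fun μ => (h' μ).map φ, fun μ => (u μ).map φ, ?_, ?_, ?_, ?_⟩
  · intro μ i
    rw [coeff_map]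
    exact ((h' μ).coeff i).2
  · intro μ i
    rw [coeff_map]
    exact ((u μ).coeff i).2
  · have h1 := congrArg (Polynomial.map φ) hb
    rw [Polynomial.map_sum, Polynomial.map_one] at h1
    rw [← h1]
    exact Finset.sum_congr rfl fun μ _ => (Polynomial.map_mul φ).symm
  · have hgy : aeval y g ≠ 0 := fun h0 => hY y hy (hA y ⟨g, hg, h0⟩)
    have h2 : aeval y g * ∑ μ ∈ S, ((h' μ).map φ).eval y * ∏ j, t j ^ μ j = aeval y g * 0 := by
      rw [mul_zero, ← hrel, Finset.mul_sum]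
      refine Finset.sum_congr rfl fun μ hμ => ?_
      rw [hfac μ hμ, map_mul, eval_map_algebraMap]
      ring
    exact mul_left_cancel₀ hgy h2

end Pool.Agent.Helper38.OB
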